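import Pool.Agent.helper29.NS.SpecC
import Pool.Agent.helper93.NS.UZ

/-!
# MP_b9b054_an (project `ns:`), module `ns:ZZ`
-/

namespace NS

open MeasureTheory Filter Topology Set

theorem ZZ_lap_cont {V : ℝ × ℝ × ℝ → ℝ} (hV : ContDiff ℝ 2 V) : Continuous (lap V) := by
  have h2 := IT_dxc (IT_dx1 hV)
  have h3 := IT_dyc (IT_dy1 hV)
  unfold lap
  fun_prop

theorem ZZ_lap_cs {V : ℝ × ℝ × ℝ → ℝ} (hc : HasCompactSupport V) :
    HasCompactSupport (lap V) := by
  have h2 : HasCompactSupport (dx (dx V)) := IT_cs _ (IT_cs _ hc)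
  have h3 : HasCompactSupport (dy (dy V)) := IT_cs _ (IT_cs _ hc)
  exact h2.add h3

/-- the nine-term inequality -/
theorem ZZ_nine {K p q r a b c d e f g h i : ℝ}
    (hh : |p| + |q| + |r| ≤ K * (|a| + |b| + |c| + |d| + |e| + |f| + |g| + |h| + |i|)) :
    p ^ 2 + q ^ 2 + r ^ 2 ≤ 9 * K ^ 2 * ((a ^ 2 + (d ^ 2 + e ^ 2)) + (b ^ 2 + (f ^ 2 + g ^ 2))
      + (c ^ 2 + (h ^ 2 + i ^ 2))) := by
  have h1 : (|p| + |q| + |r|) ^ 2
      ≤ (K * (|a| + |b| + |c| + |d| + |e| + |f| + |g| + |h| + |i|)) ^ 2 :=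
    pow_le_pow_left₀ (by positivity) hh 2
  have h2 : p ^ 2 + q ^ 2 + r ^ 2 ≤ (|p| + |q| + |r|) ^ 2 := by
    rw [← sq_abs p, ← sq_abs q, ← sq_abs r]
    have := mul_nonneg (abs_nonneg p) (abs_nonneg q)
    have := mul_nonneg (abs_nonneg p) (abs_nonneg r)
    have := mul_nonneg (abs_nonneg q) (abs_nonneg r)
    nlinarith
  have h3 : (|a| + |b| + |c| + |d| + |e| + |f| + |g| + |h| + |i|) ^ 2
      ≤ 9 * (a ^ 2 + b ^ 2 + c ^ 2 + d ^ 2 + e ^ 2 + f ^ 2 + g ^ 2 + h ^ 2 + i ^ 2) := by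
    rw [← sq_abs a, ← sq_abs b, ← sq_abs c, ← sq_abs d, ← sq_abs e, ← sq_abs f, ← sq_abs g,
      ← sq_abs h, ← sq_abs i]
    have hs := sq_sum_le_card_mul_sum_sq (s := (Finset.univ : Finset (Fin 9)))
      (f := ![|a|, |b|, |c|, |d|, |e|, |f|, |g|, |h|, |i|])
    simp only [Fin.sum_univ_succ, Fin.sum_univ_zero, Finset.card_univ, Fintype.card_fin,
      Matrix.cons_val_zero, Matrix.cons_val_succ] at hs
    push_cast at hs
    linarith
  have h4 : K ^ 2 * (|a| + |b| + |c| + |d| + |e| + |f| + |g| + |h| + |i|) ^ 2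
      ≤ K ^ 2 * (9 * (a ^ 2 + b ^ 2 + c ^ 2 + d ^ 2 + e ^ 2 + f ^ 2 + g ^ 2 + h ^ 2 + i ^ 2)) :=
    mul_le_mul_of_nonneg_left h3 (sq_nonneg K)
  rw [mul_pow] at h1
  linarith

/-- absorption and the limit `τ → ∞`, numerical part -/
theorem ZZ_num {C M τ A B E1 H0 c0 : ℝ} (hτ1 : 1 ≤ τ) (hτK : 2 * C * M ≤ τ)
    (hA : 0 ≤ A) (hB : 0 ≤ B) (hE : 0 < E1) (hc : E1 * c0 ≤ A)
    (hmain : τ ^ 3 * A + τ * B ≤ C * (M * (A + B) + E1 * H0)) :
    τ ^ 3 * c0 ≤ 2 * C * H0 := by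
  have h3 : τ ≤ τ ^ 3 := by
    calc τ = τ ^ 1 := (pow_one τ).symm
      _ ≤ τ ^ 3 := pow_le_pow_right₀ hτ1 (by norm_num)
  have hτ3 : 0 ≤ τ ^ 3 := by positivity
  have e1 : 2 * C * M * A ≤ τ ^ 3 * A :=
    mul_le_mul_of_nonneg_right (hτK.trans h3) hA
  have e2 : 2 * C * M * B ≤ τ * B := mul_le_mul_of_nonneg_right hτK hB
  have e3 : τ ^ 3 * (E1 * c0) ≤ τ ^ 3 * A := mul_le_mul_of_nonneg_left hc hτ3
  have e4 : 0 ≤ τ * B := mul_nonneg (by linarith) hB
  have e5 : E1 * (τ ^ 3 * c0) ≤ E1 * (2 * C * H0) := by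
    nlinarith
  exact le_of_mul_le_mul_left e5 hE

theorem ZZ_cutoff_supp {χ : ℝ × ℝ × ℝ → ℝ} {R2 R : ℝ} (h0 : 0 < R2) (hR : R2 < R)
    (h : ∀ z, χ z ≠ 0 → |z.1| ≤ 2 ∧ rh z ≤ R2 ^ 2) : tsupport χ ⊆ Ioo (-3) 3 ×ˢ Dsc 0 R := by
  have hcl : IsClosed {z : ℝ × ℝ × ℝ | |z.1| ≤ 2 ∧ rh z ≤ R2 ^ 2} := by
    have k1 : IsClosed {z : ℝ × ℝ × ℝ | |z.1| ≤ 2} :=
      isClosed_le (continuous_fst.abs) continuous_const
    have k2 : IsClosed {z : ℝ × ℝ × ℝ | rh z ≤ R2 ^ 2} :=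
      isClosed_le UZ_rh_cont continuous_const
    exact k1.inter k2
  intro z hz
  have : z ∈ {z : ℝ × ℝ × ℝ | |z.1| ≤ 2 ∧ rh z ≤ R2 ^ 2} :=
    closure_minimal (fun y hy => h y hy) hcl hz
  obtain ⟨h1, h2⟩ := this
  rw [abs_le] at h1
  refine ⟨⟨by linarith [h1.1], by linarith [h1.2]⟩, (UZ_mem z R).2 ?_⟩
  nlinarith

theorem ZZ_smooth {χ v : ℝ × ℝ × ℝ → ℝ} {R : ℝ} (hχ : ContDiff ℝ (⊤ : ℕ∞) χ)
    (hc : HasCompactSupport χ) (hs : tsupport χ ⊆ Ioo (-3) 3 ×ˢ Dsc 0 R)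
    (hv : ContDiffOn ℝ 2 v (Ioo (-3) 3 ×ˢ Dsc 0 R)) :
    ContDiff ℝ 2 (fun z => χ z * v z) ∧ HasCompactSupport (fun z => χ z * v z) := by
  have hU : IsOpen ((Ioo (-3) 3 : Set ℝ) ×ˢ Dsc 0 R) := by
    apply isOpen_Ioo.prod
    unfold Dsc
    exact isOpen_lt (by fun_prop) continuous_const
  refine ⟨?_, hc.mul_right⟩
  rw [contDiff_iff_contDiffAt]
  intro z
  by_cases hz : z ∈ (Ioo (-3) 3 : Set ℝ) ×ˢ Dsc 0 R
  · have hχ2 : ContDiffAt ℝ 2 χ z :=
      (hχ.of_le (WithTop.coe_le_coe.mpr (le_top : (2 : ℕ∞) ≤ ⊤))).contDiffAt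
    exact hχ2.mul ((hv z hz).contDiffAt (hU.mem_nhds hz))
  · have h1 : z ∉ tsupport χ := fun h => hz (hs h)
    have h2 : χ =ᶠ[𝓝 z] 0 := notMem_tsupport_iff_eventuallyEq.mp h1
    have h0 : (fun z => χ z * v z) =ᶠ[𝓝 z] fun _ => (0 : ℝ) := by
      filter_upwards [h2] with y hy
      simp [hy]
    exact contDiffAt_const.congr_of_eventuallyEq h0

theorem ZZ_evl {f g : ℝ × ℝ × ℝ → ℝ} {z : ℝ × ℝ × ℝ} (h : f =ᶠ[𝓝 z] g) :
    f z = g z ∧ dx f z = dx g z ∧ dy f z = dy g z ∧ lap f z = lap g z := by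
  obtain ⟨-, h2, h3⟩ := UZ_evd h
  refine ⟨h.eq_of_nhds, h2.eq_of_nhds, h3.eq_of_nhds, ?_⟩
  unfold lap
  rw [(UZ_evd h2).2.1.eq_of_nhds, (UZ_evd h3).2.2.eq_of_nhds]

theorem ZZ_split {f1 f2 f3 g1 g2 g3 h1 h2 h3 : ℝ × ℝ × ℝ → ℝ} (i1 : Integrable f1)
    (i2 : Integrable f2) (i3 : Integrable f3) (j1 : Integrable g1) (j2 : Integrable g2)
    (j3 : Integrable g3) (k1 : Integrable h1) (k2 : Integrable h2) (k3 : Integrable h3)
    (a b : ℝ) :
    Integrable (fun z => a * ((f1 z + g1 z) + (f2 z + g2 z) + (f3 z + g3 z))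
      + b * (h1 z + h2 z + h3 z)) ∧
    ∫ z, (a * ((f1 z + g1 z) + (f2 z + g2 z) + (f3 z + g3 z)) + b * (h1 z + h2 z + h3 z))
      = a * (((∫ z, f1 z) + ∫ z, g1 z) + ((∫ z, f2 z) + ∫ z, g2 z) + ((∫ z, f3 z) + ∫ z, g3 z))
        + b * ((∫ z, h1 z) + (∫ z, h2 z) + ∫ z, h3 z) := by
  have l1 : Integrable (fun z => f1 z + g1 z) := i1.add j1
  have l2 : Integrable (fun z => f2 z + g2 z) := i2.add j2
  have l3 : Integrable (fun z => f3 z + g3 z) := i3.add j3
  have l4 : Integrable (fun z => (f1 z + g1 z) + (f2 z + g2 z)) := l1.add l2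
  have l5 : Integrable (fun z => (f1 z + g1 z) + (f2 z + g2 z) + (f3 z + g3 z)) := l4.add l3
  have m1 : Integrable (fun z => h1 z + h2 z) := k1.add k2
  have m2 : Integrable (fun z => h1 z + h2 z + h3 z) := m1.add k3
  refine ⟨(l5.const_mul a).add (m2.const_mul b), ?_⟩
  rw [integral_add (l5.const_mul a) (m2.const_mul b), integral_const_mul, integral_const_mul,
    integral_add l4 l3, integral_add l1 l2, integral_add i1 j1, integral_add i2 j2,
    integral_add i3 j3, integral_add m1 k3, integral_add k1 k2]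

theorem ZZ_add3 {f g h : ℝ × ℝ × ℝ → ℝ} (i1 : Integrable f) (i2 : Integrable g)
    (i3 : Integrable h) : Integrable (fun z => f z + g z + h z) ∧
    ∫ z, (f z + g z + h z) = (∫ z, f z) + (∫ z, g z) + ∫ z, h z := by
  have j1 : Integrable (fun z => f z + g z) := i1.add i2
  refine ⟨j1.add i3, ?_⟩
  rw [integral_add j1 i3, integral_add i1 i2]

/-- the pointwise estimate -/
theorem ZZ_point {v w ζ χ : ℝ × ℝ × ℝ → ℝ} {R R1 l ν K τ : ℝ} (hR1 : 0 < R1) (hR : R1 < R)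
    (hl : 0 < l) (hτ : 0 ≤ τ)
    (h1 : ∀ z : ℝ × ℝ × ℝ, |z.1| ≤ 1 → rh z ≤ R1 ^ 2 → χ z = 1)
    (hin : ∀ t ∈ Ioo (-3 : ℝ) 3, ∀ q ∈ Dsc 0 R,
      |lap v (t, q)| + |lap w (t, q)| + |heat ν ζ (t, q)| ≤ K * XX v w ζ (t, q))
    (z : ℝ × ℝ × ℝ) :
    Real.exp (2 * τ * wt l z) * lap (fun z => χ z * v z) z ^ 2
      + Real.exp (2 * τ * wt l z) * lap (fun z => χ z * w z) z ^ 2
      + Real.exp (2 * τ * wt l z) * heat ν (fun z => χ z * ζ z) z ^ 2
    ≤ 9 * K ^ 2 * ((Real.exp (2 * τ * wt l z) * (χ z * v z) ^ 2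
        + Real.exp (2 * τ * wt l z) * (dx (fun z => χ z * v z) z ^ 2
          + dy (fun z => χ z * v z) z ^ 2))
      + (Real.exp (2 * τ * wt l z) * (χ z * w z) ^ 2
        + Real.exp (2 * τ * wt l z) * (dx (fun z => χ z * w z) z ^ 2
          + dy (fun z => χ z * w z) z ^ 2))
      + (Real.exp (2 * τ * wt l z) * (χ z * ζ z) ^ 2
        + Real.exp (2 * τ * wt l z) * (dx (fun z => χ z * ζ z) z ^ 2
          + dy (fun z => χ z * ζ z) z ^ 2)))
      + Real.exp (2 * τ * Real.exp (-(l * R1 ^ 2))) * (lap (fun z => χ z * v z) z ^ 2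
        + lap (fun z => χ z * w z) z ^ 2 + heat ν (fun z => χ z * ζ z) z ^ 2) := by
  set e := Real.exp (2 * τ * wt l z) with he
  have hepos : 0 < e := Real.exp_pos _
  set E1 := Real.exp (2 * τ * Real.exp (-(l * R1 ^ 2))) with hE1
  have hE1pos : 0 < E1 := Real.exp_pos _
  by_cases hz : |z.1| < 1 ∧ rh z < R1 ^ 2
  · obtain ⟨v1, v2, v3, v4⟩ := ZZ_evl (UZ_ev (v := v) h1 z hz.1 hz.2)
    obtain ⟨w1, w2, w3, w4⟩ := ZZ_evl (UZ_ev (v := w) h1 z hz.1 hz.2)
    obtain ⟨u1, u2, u3, u4⟩ := UZ_evh (UZ_ev (v := ζ) h1 z hz.1 hz.2) ν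
    rw [v1, v2, v3, v4, w1, w2, w3, w4, u1, u2, u3, u4]
    have hzR : z.2 ∈ Dsc 0 R := by
      rw [UZ_mem]
      have : R1 ^ 2 < R ^ 2 := by nlinarith
      exact hz.2.trans this
    have hzt : z.1 ∈ Ioo (-3 : ℝ) 3 := by
      have := abs_lt.1 hz.1
      exact ⟨by linarith [this.1], by linarith [this.2]⟩
    have h5 := hin z.1 hzt z.2 hzR
    unfold XX at h5
    have h6 := ZZ_nine h5
    simp only [Prod.mk.eta] at h6
    have h7 := mul_le_mul_of_nonneg_left h6 hepos.le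
    have h8 : 0 ≤ E1 * (lap v z ^ 2 + lap w z ^ 2 + heat ν ζ z ^ 2) := by positivity
    linarith
  · have hw1 : wt l z ≤ Real.exp (-(l * R1 ^ 2)) := by
      rw [not_and_or] at hz
      unfold wt
      rcases hz with hz | hz
      · have h2 : 1 ≤ z.1 ^ 2 := by
          rw [← sq_abs]
          have := not_lt.1 hz
          nlinarith
        have h3 : Real.exp (-(l * rh z)) ≤ 1 := by
          rw [Real.exp_le_one_iff]
          have : 0 ≤ rh z := by unfold rh; positivity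
          have := mul_nonneg hl.le this
          linarith
        have h4 := Real.exp_pos (-(l * R1 ^ 2))
        linarith
      · have h2 : Real.exp (-(l * rh z)) ≤ Real.exp (-(l * R1 ^ 2)) := by
          apply Real.exp_le_exp.2
          have := mul_le_mul_of_nonneg_left (not_lt.1 hz) hl.le
          linarith
        have h3 := sq_nonneg z.1
        linarith
    have hee : e ≤ E1 := by
      apply Real.exp_le_exp.2
      exact mul_le_mul_of_nonneg_left hw1 (by linarith)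
    have h2 : 0 ≤ lap (fun z => χ z * v z) z ^ 2 + lap (fun z => χ z * w z) z ^ 2
        + heat ν (fun z => χ z * ζ z) z ^ 2 := by
      positivity
    have h3 := mul_le_mul_of_nonneg_right hee h2
    have h4 : 0 ≤ 9 * K ^ 2 * ((e * (χ z * v z) ^ 2
        + e * (dx (fun z => χ z * v z) z ^ 2
          + dy (fun z => χ z * v z) z ^ 2))
      + (e * (χ z * w z) ^ 2
        + e * (dx (fun z => χ z * w z) z ^ 2
          + dy (fun z => χ z * w z) z ^ 2))
      + (e * (χ z * ζ z) ^ 2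
        + e * (dx (fun z => χ z * ζ z) z ^ 2
          + dy (fun z => χ z * ζ z) z ^ 2))) := by positivity
    linarith

theorem ZZ (hEC : EC_stmt) (hCE : CE_stmt) (hCO : CO_stmt) : ZZ_stmt := by
  intro R ε ν K v w ζ hε hεR hν hv hw hζ hin h0 q0 hq0
  by_contra hne
  set r := max (Real.sqrt (rh (0, q0))) ε with hr
  have hq0' : rh (0, q0) < R ^ 2 := (UZ_mem (0, q0) R).1 hq0
  have hR : 0 < R := hε.trans hεR
  have hrR : r < R := by
    rw [hr, max_lt_iff]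
    refine ⟨?_, hεR⟩
    rw [Real.sqrt_lt' hR]
    exact hq0'
  have hεr : ε ≤ r := le_max_right _ _
  have hqr : rh (0, q0) ≤ r ^ 2 := by
    rw [← Real.sqrt_le_left (by linarith)]
    exact le_max_left _ _
  obtain ⟨χ, c1, c2, c3, c4, c5⟩ := hCO (r + (R - r) / 3) (r + 2 * (R - r) / 3) (by linarith)
    (by linarith)
  set R1 := r + (R - r) / 3 with hR1
  set R2 := r + 2 * (R - r) / 3 with hR2
  have hR1pos : 0 < R1 := by linarith
  have hR12 : R1 < R2 := by linarith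
  have hR2R : R2 < R := by linarith
  have hts := ZZ_cutoff_supp (by linarith) hR2R c5
  obtain ⟨V1, V2⟩ := ZZ_smooth c1 c2 hts hv
  obtain ⟨W1, W2⟩ := ZZ_smooth c1 c2 hts hw
  obtain ⟨U1, U2⟩ := ZZ_smooth c1 c2 hts hζ
  set V : ℝ × ℝ × ℝ → ℝ := fun z => χ z * v z with hV
  set W : ℝ × ℝ × ℝ → ℝ := fun z => χ z * w z with hW
  set U : ℝ × ℝ × ℝ → ℝ := fun z => χ z * ζ z with hU
  have hεrh : ∀ z : ℝ × ℝ × ℝ, |z.1| ≤ 2 → ¬ (v z = 0 ∧ w z = 0 ∧ ζ z = 0) → ε ^ 2 ≤ rh z := by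
    intro z hz2 hz
    by_contra hlt
    apply hz
    have h2 := abs_le.1 hz2
    have := h0 z.1 ⟨by linarith [h2.1], by linarith [h2.2]⟩ z.2 ((UZ_mem z ε).2 (not_le.1 hlt))
    simpa using this
  have sV : ∀ z, V z ≠ 0 → |z.1| ≤ 2 ∧ ε ^ 2 ≤ rh z ∧ rh z ≤ R2 ^ 2 := by
    intro z hz
    have h1 : χ z ≠ 0 := left_ne_zero_of_mul hz
    have h2 : v z ≠ 0 := right_ne_zero_of_mul hz
    exact ⟨(c5 z h1).1, hεrh z (c5 z h1).1 (fun h => h2 h.1), (c5 z h1).2⟩
  have sW : ∀ z, W z ≠ 0 → |z.1| ≤ 2 ∧ ε ^ 2 ≤ rh z ∧ rh z ≤ R2 ^ 2 := by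
    intro z hz
    have h1 : χ z ≠ 0 := left_ne_zero_of_mul hz
    have h2 : w z ≠ 0 := right_ne_zero_of_mul hz
    exact ⟨(c5 z h1).1, hεrh z (c5 z h1).1 (fun h => h2 h.2.1), (c5 z h1).2⟩
  have sU : ∀ z, U z ≠ 0 → |z.1| ≤ 2 ∧ ε ^ 2 ≤ rh z ∧ rh z ≤ R2 ^ 2 := by
    intro z hz
    have h1 : χ z ≠ 0 := left_ne_zero_of_mul hz
    have h2 : ζ z ≠ 0 := right_ne_zero_of_mul hz
    exact ⟨(c5 z h1).1, hεrh z (c5 z h1).1 (fun h => h2 h.2.2), (c5 z h1).2⟩
  have hl : (0 : ℝ) < 2 / ε ^ 2 := by positivity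
  have hlε : 2 ≤ 2 / ε ^ 2 * ε ^ 2 := by
    rw [div_mul_cancel₀ _ (by positivity)]
  obtain ⟨Ca, τa, hCa, hτa, hcarla⟩ := hEC (2 / ε ^ 2) ε R2 hl hε (by linarith) hlε
  obtain ⟨Cb, τb, hCb, hτb, hcarlb⟩ := hCE ν (2 / ε ^ 2) ε R2 hν hl hε (by linarith) hlε
  set l := 2 / ε ^ 2 with hldef
  set C := max Ca Cb with hCdef
  have hC : 0 < C := lt_max_of_lt_left hCa
  set τ0 := max τa τb with hτ0def
  have hτ0 : 1 ≤ τ0 := hτa.trans (le_max_left _ _)
  set β := Real.exp (-(l * R1 ^ 2)) with hβ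
  set H0 := (∫ z, lap V z ^ 2) + (∫ z, lap W z ^ 2) + ∫ z, heat ν U z ^ 2 with hH0
  have hVc : Continuous V := V1.continuous
  have hWc : Continuous W := W1.continuous
  have hUc : Continuous U := U1.continuous
  have hgc : Continuous (fun z => max (wt l z - β) 0 * (V z ^ 2 + W z ^ 2 + U z ^ 2)) :=
    (((UZ_wt_cont l).sub continuous_const).max continuous_const).mul
      (((hVc.pow 2).add (hWc.pow 2)).add (hUc.pow 2))
  have hgs : HasCompactSupport (fun z => max (wt l z - β) 0 * (V z ^ 2 + W z ^ 2 + U z ^ 2)) :=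
    (((IT_sq V2).add (IT_sq W2)).add (IT_sq U2)).mul_left
  set c0 := ∫ z, max (wt l z - β) 0 * (V z ^ 2 + W z ^ 2 + U z ^ 2) with hc0
  have hc0pos : 0 < c0 := by
    refine hgc.integral_pos_of_hasCompactSupport_nonneg_nonzero (x := ((0 : ℝ), q0)) hgs ?_ ?_
    · intro z
      exact mul_nonneg (le_max_right _ _) (by positivity)
    · have hχ : χ (0, q0) = 1 := by
        apply c4
        · simp
        · refine hqr.trans ?_
          exact pow_le_pow_left₀ (by linarith) (by linarith) 2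
      have h1 : 0 < wt l (0, q0) - β := by
        rw [hβ]
        unfold wt
        have : l * rh (0, q0) < l * R1 ^ 2 := by
          apply mul_lt_mul_of_pos_left _ hl
          refine hqr.trans_lt ?_
          nlinarith
        have := Real.exp_lt_exp.2 (neg_lt_neg this)
        simp only [ne_eq, OfNat.ofNat_ne_zero, not_false_eq_true, zero_pow, sub_zero]
        linarith
      have h2 : V (0, q0) = v (0, q0) := by simp [hV, hχ]
      have h3 : W (0, q0) = w (0, q0) := by simp [hW, hχ]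
      have h3' : U (0, q0) = ζ (0, q0) := by simp [hU, hχ]
      rw [max_eq_left h1.le, h2, h3, h3']
      refine mul_ne_zero h1.ne' ?_
      intro h4
      apply hne
      have s1 := sq_nonneg (v (0, q0))
      have s2 := sq_nonneg (w (0, q0))
      have s3 := sq_nonneg (ζ (0, q0))
      have h5 : v (0, q0) ^ 2 = 0 := by linarith
      have h6 : w (0, q0) ^ 2 = 0 := by linarith
      have h7 : ζ (0, q0) ^ 2 = 0 := by linarith
      exact ⟨pow_eq_zero_iff (two_ne_zero) |>.1 h5, pow_eq_zero_iff (two_ne_zero) |>.1 h6,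
        pow_eq_zero_iff (two_ne_zero) |>.1 h7⟩
  have dVx : Continuous (dx V) := (IT_dx1 V1).continuous
  have dVy : Continuous (dy V) := (IT_dy1 V1).continuous
  have dWx : Continuous (dx W) := (IT_dx1 W1).continuous
  have dWy : Continuous (dy W) := (IT_dy1 W1).continuous
  have dUx : Continuous (dx U) := (IT_dx1 U1).continuous
  have dUy : Continuous (dy U) := (IT_dy1 U1).continuous
  have sVx : HasCompactSupport (dx V) := IT_cs _ V2
  have sVy : HasCompactSupport (dy V) := IT_cs _ V2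
  have sWx : HasCompactSupport (dx W) := IT_cs _ W2
  have sWy : HasCompactSupport (dy W) := IT_cs _ W2
  have sUx : HasCompactSupport (dx U) := IT_cs _ U2
  have sUy : HasCompactSupport (dy U) := IT_cs _ U2
  have hHV : Integrable (fun z => lap V z ^ 2) := by
    have := UZ_int (continuous_const (y := (1 : ℝ))) (ZZ_lap_cont V1) (ZZ_lap_cs V2)
    simpa using this
  have hHW : Integrable (fun z => lap W z ^ 2) := by
    have := UZ_int (continuous_const (y := (1 : ℝ))) (ZZ_lap_cont W1) (ZZ_lap_cs W2)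
    simpa using this
  have hHU : Integrable (fun z => heat ν U z ^ 2) := by
    have := UZ_int (continuous_const (y := (1 : ℝ))) (UZ_heat_cont (ν := ν) U1) (UZ_heat_cs U2)
    simpa using this
  have key : ∀ τ, τ0 ≤ τ → 2 * C * (9 * K ^ 2) ≤ τ → τ ^ 3 * c0 ≤ 2 * C * H0 := by
    intro τ hτ hτK
    have hτ1 : 1 ≤ τ := hτ0.trans hτ
    have hec : Continuous (fun z => Real.exp (2 * τ * wt l z)) :=
      Real.continuous_exp.comp (continuous_const.mul (UZ_wt_cont l))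
    have i1 := UZ_int hec hVc V2
    have i2 := UZ_int hec hWc W2
    have i3 := UZ_int hec hUc U2
    have j1 := UZ_int2 hec dVx sVx dVy sVy
    have j2 := UZ_int2 hec dWx sWx dWy sWy
    have j3 := UZ_int2 hec dUx sUx dUy sUy
    have k1 := UZ_int hec (ZZ_lap_cont V1) (ZZ_lap_cs V2)
    have k2 := UZ_int hec (ZZ_lap_cont W1) (ZZ_lap_cs W2)
    have k3 := UZ_int hec (UZ_heat_cont (ν := ν) U1) (UZ_heat_cs U2)
    have C1 := hcarla τ ((le_max_left _ _).trans hτ) V V1 V2 sV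
    have C2 := hcarla τ ((le_max_left _ _).trans hτ) W W1 W2 sW
    have C3 := hcarlb τ ((le_max_right _ _).trans hτ) U U1 U2 sU
    have hpt := ZZ_point (τ := τ) hR1pos (by linarith : R1 < R) hl (by linarith) c4 hin
    obtain ⟨hsI, hsE⟩ := ZZ_split i1 i2 i3 j1 j2 j3 hHV hHW hHU (9 * K ^ 2)
      (Real.exp (2 * τ * β))
    have hI : ∫ z, (Real.exp (2 * τ * wt l z) * lap V z ^ 2
        + Real.exp (2 * τ * wt l z) * lap W z ^ 2 + Real.exp (2 * τ * wt l z) * heat ν U z ^ 2)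
        ≤ ∫ z, (9 * K ^ 2 * ((Real.exp (2 * τ * wt l z) * V z ^ 2
        + Real.exp (2 * τ * wt l z) * (dx V z ^ 2 + dy V z ^ 2))
      + (Real.exp (2 * τ * wt l z) * W z ^ 2
        + Real.exp (2 * τ * wt l z) * (dx W z ^ 2 + dy W z ^ 2))
      + (Real.exp (2 * τ * wt l z) * U z ^ 2
        + Real.exp (2 * τ * wt l z) * (dx U z ^ 2 + dy U z ^ 2)))
      + Real.exp (2 * τ * β) * (lap V z ^ 2 + lap W z ^ 2 + heat ν U z ^ 2)) := by
      refine integral_mono (ZZ_add3 k1 k2 k3).1 hsI ?_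
      intro z
      exact hpt z
    have hsL : ∫ z, (Real.exp (2 * τ * wt l z) * lap V z ^ 2
        + Real.exp (2 * τ * wt l z) * lap W z ^ 2 + Real.exp (2 * τ * wt l z) * heat ν U z ^ 2)
        = (∫ z, Real.exp (2 * τ * wt l z) * lap V z ^ 2)
          + (∫ z, Real.exp (2 * τ * wt l z) * lap W z ^ 2)
          + ∫ z, Real.exp (2 * τ * wt l z) * heat ν U z ^ 2 := (ZZ_add3 k1 k2 k3).2
    rw [hsE, hsL] at hI
    have hlow : Real.exp (2 * τ * β) * c0 ≤ (∫ z, Real.exp (2 * τ * wt l z) * V z ^ 2)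
        + (∫ z, Real.exp (2 * τ * wt l z) * W z ^ 2)
        + ∫ z, Real.exp (2 * τ * wt l z) * U z ^ 2 := by
      have hs3 : (∫ z, Real.exp (2 * τ * wt l z) * V z ^ 2)
        + (∫ z, Real.exp (2 * τ * wt l z) * W z ^ 2)
        + ∫ z, Real.exp (2 * τ * wt l z) * U z ^ 2 = ∫ z, (Real.exp (2 * τ * wt l z) * V z ^ 2
          + Real.exp (2 * τ * wt l z) * W z ^ 2 + Real.exp (2 * τ * wt l z) * U z ^ 2) :=
        (ZZ_add3 i1 i2 i3).2.symm
      rw [hs3, hc0, ← integral_const_mul]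
      refine integral_mono ((IT_int hgc hgs).const_mul _) (ZZ_add3 i1 i2 i3).1 ?_
      intro z
      have h1 : Real.exp (2 * τ * β) * max (wt l z - β) 0 ≤ Real.exp (2 * τ * wt l z) := by
        rcases le_total (wt l z - β) 0 with h2 | h2
        · rw [max_eq_right h2, mul_zero]
          exact (Real.exp_pos _).le
        · rw [max_eq_left h2]
          have h3 : wt l z - β ≤ Real.exp (2 * τ * (wt l z - β)) := by
            have h4 := Real.add_one_le_exp (2 * τ * (wt l z - β))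
            nlinarith
          have h5 := mul_le_mul_of_nonneg_left h3 (Real.exp_pos (2 * τ * β)).le
          rw [← Real.exp_add] at h5
          have h6 : 2 * τ * β + 2 * τ * (wt l z - β) = 2 * τ * wt l z := by ring
          rwa [h6] at h5
      have h2 : 0 ≤ V z ^ 2 + W z ^ 2 + U z ^ 2 := by positivity
      have h3 := mul_le_mul_of_nonneg_right h1 h2
      show Real.exp (2 * τ * β) * (max (wt l z - β) 0 * (V z ^ 2 + W z ^ 2 + U z ^ 2)) ≤
        Real.exp (2 * τ * wt l z) * V z ^ 2 + Real.exp (2 * τ * wt l z) * W z ^ 2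
          + Real.exp (2 * τ * wt l z) * U z ^ 2
      linarith
    have nV : 0 ≤ ∫ z, Real.exp (2 * τ * wt l z) * lap V z ^ 2 :=
      integral_nonneg fun z => by positivity
    have nW : 0 ≤ ∫ z, Real.exp (2 * τ * wt l z) * lap W z ^ 2 :=
      integral_nonneg fun z => by positivity
    have nU : 0 ≤ ∫ z, Real.exp (2 * τ * wt l z) * heat ν U z ^ 2 :=
      integral_nonneg fun z => by positivity
    have D1 := mul_le_mul_of_nonneg_right (le_max_left Ca Cb) nV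
    have D2 := mul_le_mul_of_nonneg_right (le_max_left Ca Cb) nW
    have D3 := mul_le_mul_of_nonneg_right (le_max_right Ca Cb) nU
    rw [← hCdef] at D1 D2 D3
    refine ZZ_num (E1 := Real.exp (2 * τ * β)) (M := 9 * K ^ 2)
      (A := (∫ z, Real.exp (2 * τ * wt l z) * V z ^ 2)
        + (∫ z, Real.exp (2 * τ * wt l z) * W z ^ 2)
        + ∫ z, Real.exp (2 * τ * wt l z) * U z ^ 2)
      (B := (∫ z, Real.exp (2 * τ * wt l z) * (dx V z ^ 2 + dy V z ^ 2))
        + (∫ z, Real.exp (2 * τ * wt l z) * (dx W z ^ 2 + dy W z ^ 2))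
        + ∫ z, Real.exp (2 * τ * wt l z) * (dx U z ^ 2 + dy U z ^ 2)) hτ1 hτK ?_ ?_
      (Real.exp_pos _) hlow ?_
    · exact add_nonneg (add_nonneg (integral_nonneg fun z => by positivity)
        (integral_nonneg fun z => by positivity)) (integral_nonneg fun z => by positivity)
    · exact add_nonneg (add_nonneg (integral_nonneg fun z => by positivity)
        (integral_nonneg fun z => by positivity)) (integral_nonneg fun z => by positivity)
    · have h1 := mul_le_mul_of_nonneg_left hI hC.le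
      rw [hH0]
      linarith
  have hH0n : 0 ≤ H0 := add_nonneg (add_nonneg (integral_nonneg fun z => by positivity)
    (integral_nonneg fun z => by positivity)) (integral_nonneg fun z => by positivity)
  have hτ := key (max (max τ0 (2 * C * (9 * K ^ 2))) (2 * C * H0 / c0 + 1))
    ((le_max_left _ _).trans (le_max_left _ _)) ((le_max_right _ _).trans (le_max_left _ _))
  set τ := max (max τ0 (2 * C * (9 * K ^ 2))) (2 * C * H0 / c0 + 1) with hτdef
  have hτ1 : 1 ≤ τ := hτ0.trans ((le_max_left _ _).trans (le_max_left _ _))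
  have hτ2 : 2 * C * H0 / c0 + 1 ≤ τ := le_max_right _ _
  have hτ3 : τ ≤ τ ^ 3 := by
    calc τ = τ ^ 1 := (pow_one τ).symm
      _ ≤ τ ^ 3 := pow_le_pow_right₀ hτ1 (by norm_num)
  have h1 : 2 * C * H0 < τ * c0 := by
    rw [← div_lt_iff₀ hc0pos]
    linarith
  have h2 : τ * c0 ≤ τ ^ 3 * c0 := mul_le_mul_of_nonneg_right hτ3 hc0pos.le
  linarith

end NS
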